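import Pool.Agent.Work.OracleCmd_h91.Progs

open Classical

namespace Pool.IC

theorem mark_inj (w : Str) : ∀ (w' z z' : Str), mark w ++ false :: z = mark w' ++ false :: z' →
    w = w' ∧ z = z' := by
  induction w with
  | nil =>
    intro w' z z' h
    cases w' with
    | nil => simpa [mark] using h
    | cons a w' => simp [mark] at h
  | cons a w ih =>
    intro w' z z' h
    cases w' with
    | nil => simp [mark] at h
    | cons a' w' =>
      rw [mark_cons, mark_cons] at h
      simp only [List.cons_append, List.cons.injEq, true_and] at h
      obtain ⟨h1, h2⟩ := h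
      obtain ⟨h3, h4⟩ := ih w' z z' h2
      exact ⟨by rw [h1, h3], h4⟩

theorem rep_inj (x : Bool) (k : ℕ) : ∀ (k' : ℕ) (z z' : Str),
    List.replicate k x ++ (!x) :: z = List.replicate k' x ++ (!x) :: z' → k = k' ∧ z = z' := by
  induction k with
  | zero =>
    intro k' z z' h
    cases k' with
    | zero => simpa using h
    | succ k' =>
      rw [List.replicate_succ] at h
      simp at h
  | succ k ih =>
    intro k' z z' h
    cases k' with
    | zero =>
      rw [List.replicate_succ] at h
      simp at h
    | succ k' =>
      rw [List.replicate_succ, List.replicate_succ] at h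
      simp only [List.cons_append, List.cons.injEq, true_and] at h
      obtain ⟨h3, h4⟩ := ih k' z z' h
      exact ⟨by rw [h3], h4⟩

theorem wt_inj {b b' : Bool} {w w' z z' : Str} (h : wt b w z = wt b' w' z') :
    b = b' ∧ w = w' ∧ z = z' := by
  unfold wt at h
  simp only [List.cons.injEq, true_and] at h
  exact ⟨h.1, mark_inj w w' z z' h.2⟩

theorem length_mark (w : Str) : (mark w).length = 2 * w.length := by
  induction w with
  | nil => rfl
  | cons a w ih =>
    rw [mark_cons]
    simp only [List.length_cons, ih]
    ring

theorem length_wt (b : Bool) (w z : Str) : (wt b w z).length = z.length + 2 * w.length + 5 := by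
  simp [wt, length_mark]; ring
/-- The last `n` bits of a string. -/
def suf (n : ℕ) (s : Str) : Str := s.drop (s.length - n)

theorem suf_append (u z : Str) : suf z.length (u ++ z) = z := by
  unfold suf
  rw [List.length_append, Nat.add_sub_cancel]
  simp

/-- All strings of length `n`. -/
def strs (n : ℕ) : Finset Str := Finset.univ.image fun f : Fin n → Bool => List.ofFn f

theorem mem_strs {n : ℕ} {z : Str} : z ∈ strs n ↔ z.length = n := by
  unfold strs
  rw [Finset.mem_image]
  constructor
  · rintro ⟨f, -, rfl⟩
    exact List.length_ofFn
  · rintro rfl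
    exact ⟨fun i => z.get i, Finset.mem_univ _, List.ofFn_get z⟩

theorem card_strs (n : ℕ) : (strs n).card = 2 ^ n := by
  unfold strs
  rw [Finset.card_image_of_injective _ List.ofFn_injective]
  simp

/-- All strings of length less than `n`. -/
def short (n : ℕ) : Finset Str := (Finset.range n).biUnion strs

theorem mem_short {n : ℕ} {z : Str} : z ∈ short n ↔ z.length < n := by
  unfold short
  rw [Finset.mem_biUnion]
  simp only [Finset.mem_range, mem_strs, exists_eq_right']

theorem card_short (n : ℕ) : (short n).card + 1 ≤ 2 ^ n := by
  unfold short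
  have h1 : ((Finset.range n).biUnion strs).card ≤ ∑ i ∈ Finset.range n, 2 ^ i := by
    refine Finset.card_biUnion_le.trans ?_
    exact Finset.sum_le_sum fun i _ => (card_strs i).le
  have h2 := Nat.geomSum_eq (m := 2) le_rfl n
  have h3 : 0 < 2 ^ n := by positivity
  simp only [Nat.add_one_sub_one, Nat.div_one] at h2
  omega

end Pool.IC
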