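import Pool.Agent.Work.OracleCmd_h91.Exec

open Classical

namespace Pool.IC

/-- Stacks 0 to 6, the others empty. -/
def st (a b c d e f g : Str) : Store
  | 0 => a
  | 1 => b
  | 2 => c
  | 3 => d
  | 4 => e
  | 5 => f
  | 6 => g
  | _ => []

section
variable (a b c d e f g x : Str)

theorem upd0 : Function.update (st a b c d e f g) 0 x = st x b c d e f g := by
  funext i; rcases i with _ | _ | _ | _ | _ | _ | _ | i <;> rfl
theorem upd1 : Function.update (st a b c d e f g) 1 x = st a x c d e f g := by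
  funext i; rcases i with _ | _ | _ | _ | _ | _ | _ | i <;> rfl
theorem upd2 : Function.update (st a b c d e f g) 2 x = st a b x d e f g := by
  funext i; rcases i with _ | _ | _ | _ | _ | _ | _ | i <;> rfl
theorem upd3 : Function.update (st a b c d e f g) 3 x = st a b c x e f g := by
  funext i; rcases i with _ | _ | _ | _ | _ | _ | _ | i <;> rfl
theorem upd4 : Function.update (st a b c d e f g) 4 x = st a b c d x f g := by
  funext i; rcases i with _ | _ | _ | _ | _ | _ | _ | i <;> rfl
theorem upd5 : Function.update (st a b c d e f g) 5 x = st a b c d e x g := by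
  funext i; rcases i with _ | _ | _ | _ | _ | _ | _ | i <;> rfl
theorem upd6 : Function.update (st a b c d e f g) 6 x = st a b c d e f x := by
  funext i; rcases i with _ | _ | _ | _ | _ | _ | _ | i <;> rfl

end

theorem init_eq (p y z : Str) : init p y z = st p y z [] [] [] [] := by
  funext i; rcases i with _ | _ | _ | _ | _ | _ | _ | i <;> simp [init, st]

/-- Execution in at most `N` steps. -/
def ExecLe (B : Set Str) (c : Cmd) (s : Store) (N : ℕ) (s' : Store) : Prop :=
  ∃ n ≤ N, Exec B c s n s'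

theorem ExecLe.seq {B : Set Str} {c d : Cmd} {s s' s'' : Store} {m n : ℕ}
    (h1 : ExecLe B c s m s') (h2 : ExecLe B d s' n s'') :
    ExecLe B (Cmd.seq c d) s (m + n + 1) s'' := by
  obtain ⟨m', hm, h1⟩ := h1
  obtain ⟨n', hn, h2⟩ := h2
  exact ⟨m' + n' + 1, by omega, exec_seq h1 h2⟩

theorem ExecLe.mono {B : Set Str} {c : Cmd} {s s' : Store} {m n : ℕ}
    (h1 : ExecLe B c s m s') (h : m ≤ n) : ExecLe B c s n s' := by
  obtain ⟨m', hm, h1⟩ := h1
  exact ⟨m', hm.trans h, h1⟩

theorem le_skip (B : Set Str) (s : Store) : ExecLe B Cmd.skip s 1 s := ⟨1, le_rfl, exec_skip B s⟩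

theorem ExecLe.ask_yes {B : Set Str} {i : ℕ} {y n : Cmd} {s s' : Store} {m : ℕ}
    (hi : s i ∈ B) (h : ExecLe B y s m s') : ExecLe B (Cmd.ask i y n) s (m + 1) s' := by
  obtain ⟨m', hm, h⟩ := h
  exact ⟨m' + 1, by omega, exec_ask_yes hi h⟩

theorem ExecLe.ask_no {B : Set Str} {i : ℕ} {y n : Cmd} {s s' : Store} {m : ℕ}
    (hi : s i ∉ B) (h : ExecLe B n s m s') : ExecLe B (Cmd.ask i y n) s (m + 1) s' := by
  obtain ⟨m', hm, h⟩ := h
  exact ⟨m' + 1, by omega, exec_ask_no hi h⟩

theorem ask4_yes {B : Set Str} {y n : Cmd} {a b c d e f g : Str} {s' : Store} {m : ℕ}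
    (hi : e ∈ B) (h : ExecLe B y (st a b c d e f g) m s') :
    ExecLe B (Cmd.ask 4 y n) (st a b c d e f g) (m + 1) s' :=
  ExecLe.ask_yes (i := 4) (s := st a b c d e f g) hi h

theorem ask4_no {B : Set Str} {y n : Cmd} {a b c d e f g : Str} {s' : Store} {m : ℕ}
    (hi : e ∉ B) (h : ExecLe B n (st a b c d e f g) m s') :
    ExecLe B (Cmd.ask 4 y n) (st a b c d e f g) (m + 1) s' :=
  ExecLe.ask_no (i := 4) (s := st a b c d e f g) hi h

theorem ExecLe.branch_nil {B : Set Str} {i : ℕ} {e f t : Cmd} {s s' : Store} {n : ℕ}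
    (hi : s i = []) (h : ExecLe B e s n s') : ExecLe B (Cmd.branch i e f t) s (n + 1) s' := by
  obtain ⟨m', hm, h⟩ := h
  exact ⟨m' + 1, by omega, exec_branch_nil hi h⟩

theorem ExecLe.branch_cons {B : Set Str} {i : ℕ} {e f t : Cmd} {s s' : Store} {n : ℕ} {b : Bool}
    {l : Str} (hi : s i = b :: l) (h : ExecLe B (bif b then t else f) s n s') :
    ExecLe B (Cmd.branch i e f t) s (n + 1) s' := by
  obtain ⟨m', hm, h⟩ := h
  cases b
  · exact ⟨m' + 1, by omega, exec_branch_false hi h⟩
  · exact ⟨m' + 1, by omega, exec_branch_true hi h⟩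

theorem ExecLe.loop_nil {B : Set Str} {i : ℕ} {c : Cmd} {s : Store}
    (hi : s i = []) : ExecLe B (Cmd.loop i c) s 1 s := ⟨1, le_rfl, exec_loop_nil hi⟩

theorem ExecLe.loop_step {B : Set Str} {i : ℕ} {c : Cmd} {s s' s'' : Store} {m n : ℕ}
    (hi : s i ≠ []) (h1 : ExecLe B c s m s') (h2 : ExecLe B (Cmd.loop i c) s' n s'') :
    ExecLe B (Cmd.loop i c) s (m + n + 1) s'' := by
  obtain ⟨m', hm, h1⟩ := h1
  obtain ⟨n', hn, h2⟩ := h2
  exact ⟨m' + n' + 1, by omega, exec_loop_step hi h1 h2⟩

/-! ### push and pop on the stacks 0 to 6 -/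

section
variable (B : Set Str) (a b c d e f g : Str) (x : Bool)

theorem push3 : ExecLe B (Cmd.push 3 x) (st a b c d e f g) 1 (st a b c (x :: d) e f g) :=
  ⟨1, le_rfl, by have := exec_push B 3 x (st a b c d e f g); rwa [upd3] at this⟩
theorem push4 : ExecLe B (Cmd.push 4 x) (st a b c d e f g) 1 (st a b c d (x :: e) f g) :=
  ⟨1, le_rfl, by have := exec_push B 4 x (st a b c d e f g); rwa [upd4] at this⟩
theorem push5 : ExecLe B (Cmd.push 5 x) (st a b c d e f g) 1 (st a b c d e (x :: f) g) :=
  ⟨1, le_rfl, by have := exec_push B 5 x (st a b c d e f g); rwa [upd5] at this⟩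
theorem push6 : ExecLe B (Cmd.push 6 x) (st a b c d e f g) 1 (st a b c d e f (x :: g)) :=
  ⟨1, le_rfl, by have := exec_push B 6 x (st a b c d e f g); rwa [upd6] at this⟩
theorem push2 : ExecLe B (Cmd.push 2 x) (st a b c d e f g) 1 (st a b (x :: c) d e f g) :=
  ⟨1, le_rfl, by have := exec_push B 2 x (st a b c d e f g); rwa [upd2] at this⟩
theorem pop0 : ExecLe B (Cmd.pop 0) (st a b c d e f g) 1 (st a.tail b c d e f g) :=
  ⟨1, le_rfl, by have := exec_pop B 0 (st a b c d e f g); rwa [upd0] at this⟩
theorem pop1 : ExecLe B (Cmd.pop 1) (st a b c d e f g) 1 (st a b.tail c d e f g) :=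
  ⟨1, le_rfl, by have := exec_pop B 1 (st a b c d e f g); rwa [upd1] at this⟩
theorem pop2 : ExecLe B (Cmd.pop 2) (st a b c d e f g) 1 (st a b c.tail d e f g) :=
  ⟨1, le_rfl, by have := exec_pop B 2 (st a b c d e f g); rwa [upd2] at this⟩
theorem pop4 : ExecLe B (Cmd.pop 4) (st a b c d e f g) 1 (st a b c d e.tail f g) :=
  ⟨1, le_rfl, by have := exec_pop B 4 (st a b c d e f g); rwa [upd4] at this⟩
theorem pop5 : ExecLe B (Cmd.pop 5) (st a b c d e f g) 1 (st a b c d e f.tail g) :=
  ⟨1, le_rfl, by have := exec_pop B 5 (st a b c d e f g); rwa [upd5] at this⟩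
theorem pop6 : ExecLe B (Cmd.pop 6) (st a b c d e f g) 1 (st a b c d e f g.tail) :=
  ⟨1, le_rfl, by have := exec_pop B 6 (st a b c d e f g); rwa [upd6] at this⟩

end

/-! ### Moving stacks -/

/-- Move stack `i` onto stack `j` (reversed). -/
def mv (i j : ℕ) : Cmd :=
  Cmd.loop i (Cmd.branch i Cmd.skip (Cmd.seq (Cmd.pop i) (Cmd.push j false))
    (Cmd.seq (Cmd.pop i) (Cmd.push j true)))

/-- Move stack 5 onto the stacks 2 and 4 (reversed). -/
def mv2 : Cmd :=
  Cmd.loop 5 (Cmd.branch 5 Cmd.skip
    (Cmd.seq (Cmd.pop 5) (Cmd.seq (Cmd.push 2 false) (Cmd.push 4 false)))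
    (Cmd.seq (Cmd.pop 5) (Cmd.seq (Cmd.push 2 true) (Cmd.push 4 true))))

/-- Move stack 5 onto stack 4 (reversed), every bit followed by a mark `true`. -/
def mvMark : Cmd :=
  Cmd.loop 5 (Cmd.branch 5 Cmd.skip
    (Cmd.seq (Cmd.pop 5) (Cmd.seq (Cmd.push 4 false) (Cmd.push 4 true)))
    (Cmd.seq (Cmd.pop 5) (Cmd.seq (Cmd.push 4 true) (Cmd.push 4 true))))

section
variable (B : Set Str)

theorem mv25 (a b d e g : Str) (c f : Str) :
    ExecLe B (mv 2 5) (st a b c d e f g) (5 * c.length + 1) (st a b [] d e (c.reverse ++ f) g) := by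
  unfold mv
  induction c generalizing f with
  | nil => exact ExecLe.loop_nil rfl
  | cons x c ih =>
    have h1 : ExecLe B (Cmd.branch 2 Cmd.skip (Cmd.seq (Cmd.pop 2) (Cmd.push 5 false))
        (Cmd.seq (Cmd.pop 2) (Cmd.push 5 true))) (st a b (x :: c) d e f g) 4
        (st a b c d e (x :: f) g) := by
      refine ExecLe.branch_cons (b := x) (l := c) rfl ?_
      cases x
      · exact (pop2 B a b (false :: c) d e f g).seq (push5 B a b c d e f g false)
      · exact (pop2 B a b (true :: c) d e f g).seq (push5 B a b c d e f g true)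
    have h2 := (ExecLe.loop_step (i := 2) (by simp [st]) h1 (ih (x :: f))).mono
      (n := 5 * (x :: c).length + 1) (by simp only [List.length_cons]; omega)
    simpa using h2

theorem mv15 (a c d e g : Str) (b f : Str) :
    ExecLe B (mv 1 5) (st a b c d e f g) (5 * b.length + 1) (st a [] c d e (b.reverse ++ f) g) := by
  unfold mv
  induction b generalizing f with
  | nil => exact ExecLe.loop_nil rfl
  | cons x b ih =>
    have h1 : ExecLe B (Cmd.branch 1 Cmd.skip (Cmd.seq (Cmd.pop 1) (Cmd.push 5 false))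
        (Cmd.seq (Cmd.pop 1) (Cmd.push 5 true))) (st a (x :: b) c d e f g) 4
        (st a b c d e (x :: f) g) := by
      refine ExecLe.branch_cons (b := x) (l := b) rfl ?_
      cases x
      · exact (pop1 B a (false :: b) c d e f g).seq (push5 B a b c d e f g false)
      · exact (pop1 B a (true :: b) c d e f g).seq (push5 B a b c d e f g true)
    have h2 := (ExecLe.loop_step (i := 1) (by simp [st]) h1 (ih (x :: f))).mono
      (n := 5 * (x :: b).length + 1) (by simp only [List.length_cons]; omega)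
    simpa using h2

theorem mv54 (a b c d g : Str) (e f : Str) :
    ExecLe B (mv 5 4) (st a b c d e f g) (5 * f.length + 1) (st a b c d (f.reverse ++ e) [] g) := by
  unfold mv
  induction f generalizing e with
  | nil => exact ExecLe.loop_nil rfl
  | cons x f ih =>
    have h1 : ExecLe B (Cmd.branch 5 Cmd.skip (Cmd.seq (Cmd.pop 5) (Cmd.push 4 false))
        (Cmd.seq (Cmd.pop 5) (Cmd.push 4 true))) (st a b c d e (x :: f) g) 4
        (st a b c d (x :: e) f g) := by
      refine ExecLe.branch_cons (b := x) (l := f) rfl ?_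
      cases x
      · exact (pop5 B a b c d e (false :: f) g).seq (push4 B a b c d e f g false)
      · exact (pop5 B a b c d e (true :: f) g).seq (push4 B a b c d e f g true)
    have h2 := (ExecLe.loop_step (i := 5) (by simp [st]) h1 (ih (x :: e))).mono
      (n := 5 * (x :: f).length + 1) (by simp only [List.length_cons]; omega)
    simpa using h2

theorem mv2_spec (a b d g : Str) (c e f : Str) :
    ExecLe B mv2 (st a b c d e f g) (7 * f.length + 1)
      (st a b (f.reverse ++ c) d (f.reverse ++ e) [] g) := by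
  unfold mv2
  induction f generalizing c e with
  | nil => exact ExecLe.loop_nil rfl
  | cons x f ih =>
    have h1 : ExecLe B (Cmd.branch 5 Cmd.skip
        (Cmd.seq (Cmd.pop 5) (Cmd.seq (Cmd.push 2 false) (Cmd.push 4 false)))
        (Cmd.seq (Cmd.pop 5) (Cmd.seq (Cmd.push 2 true) (Cmd.push 4 true))))
        (st a b c d e (x :: f) g) 6 (st a b (x :: c) d (x :: e) f g) := by
      refine ExecLe.branch_cons (b := x) (l := f) rfl ?_
      cases x
      · exact (pop5 B a b c d e (false :: f) g).seq
          ((push2 B a b c d e f g false).seq (push4 B a b (false :: c) d e f g false))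
      · exact (pop5 B a b c d e (true :: f) g).seq
          ((push2 B a b c d e f g true).seq (push4 B a b (true :: c) d e f g true))
    have h2 := (ExecLe.loop_step (i := 5) (by simp [st]) h1 (ih (x :: c) (x :: e))).mono
      (n := 7 * (x :: f).length + 1) (by simp only [List.length_cons]; omega)
    simpa using h2

/-- Self-delimiting code of a string: a mark `true` before every bit. -/
def mark (w : Str) : Str := w.flatMap fun x => [true, x]

theorem mark_append (v w : Str) : mark (v ++ w) = mark v ++ mark w := by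
  simp [mark]

theorem mark_cons (x : Bool) (w : Str) : mark (x :: w) = true :: x :: mark w := by
  simp [mark]

theorem mvMark_spec (a b c d g : Str) (e f : Str) :
    ExecLe B mvMark (st a b c d e f g) (7 * f.length + 1)
      (st a b c d (mark f.reverse ++ e) [] g) := by
  unfold mvMark
  induction f generalizing e with
  | nil => exact ExecLe.loop_nil rfl
  | cons x f ih =>
    have h1 : ExecLe B (Cmd.branch 5 Cmd.skip
        (Cmd.seq (Cmd.pop 5) (Cmd.seq (Cmd.push 4 false) (Cmd.push 4 true)))
        (Cmd.seq (Cmd.pop 5) (Cmd.seq (Cmd.push 4 true) (Cmd.push 4 true))))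
        (st a b c d e (x :: f) g) 6 (st a b c d (true :: x :: e) f g) := by
      refine ExecLe.branch_cons (b := x) (l := f) rfl ?_
      cases x
      · exact (pop5 B a b c d e (false :: f) g).seq
          ((push4 B a b c d e f g false).seq (push4 B a b c d (false :: e) f g true))
      · exact (pop5 B a b c d e (true :: f) g).seq
          ((push4 B a b c d e f g true).seq (push4 B a b c d (true :: e) f g true))
    have h2 := (ExecLe.loop_step (i := 5) (by simp [st]) h1 (ih (true :: x :: e))).mono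
      (n := 7 * (x :: f).length + 1) (by simp only [List.length_cons]; omega)
    have h3 : mark (x :: f).reverse ++ e = mark f.reverse ++ true :: x :: e := by
      simp [mark]
    rw [h3]
    exact h2

end

/-- `wt b w z`: a string which contains `b`, `w` and `z`. -/
def wt (b : Bool) (w z : Str) : Str := true :: true :: false :: b :: (mark w ++ false :: z)

/-- Copy stack 2 to stack 4 (stack 5 is used). -/
def cp : Cmd := Cmd.seq (mv 2 5) mv2

theorem cp_spec (B : Set Str) (a b z d g : Str) :
    ExecLe B cp (st a b z d [] [] g) (12 * z.length + 3) (st a b z d z [] g) := by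
  have h1 := mv25 B a b d [] g z []
  have h2 := mv2_spec B a b d g [] [] z.reverse
  rw [List.append_nil] at h1
  simp only [List.reverse_reverse, List.append_nil, List.length_reverse] at h2
  exact (h1.seq h2).mono (by omega)

/-! ### Verifiers -/

/-- Verifier: is `wt b y z` in the oracle? -/
def verProg (b : Bool) : Cmd :=
  Cmd.seq (mv 2 5) (Cmd.seq (mv 5 4) (Cmd.seq (Cmd.push 4 false) (Cmd.seq (mv 1 5)
    (Cmd.seq mvMark (Cmd.seq (Cmd.push 4 b) (Cmd.seq (Cmd.push 4 false)
      (Cmd.seq (Cmd.push 4 true) (Cmd.seq (Cmd.push 4 true)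
        (Cmd.ask 4 (Cmd.push 3 true) (Cmd.push 3 false))))))))))

theorem verProg_spec (B : Set Str) (b : Bool) (y z : Str) :
    ∃ s', ExecLe B (verProg b) (st [] y z [] [] [] []) (12 * (y.length + z.length) + 30) s' ∧
      s' 3 = [decide (wt b y z ∈ B)] := by
  unfold verProg
  have h1 := mv25 B [] y [] [] [] z []
  have h2 := mv54 B [] y [] [] [] [] z.reverse
  have h3 := mv15 B [] [] [] (false :: z) [] y []
  have h4 := mvMark_spec B [] [] [] [] [] (false :: z) y.reverse
  rw [List.append_nil] at h1 h3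
  simp only [List.reverse_reverse, List.append_nil, List.length_reverse] at h2 h4
  by_cases h : wt b y z ∈ B
  · refine ⟨st [] [] [] [true] (wt b y z) [] [], ?_, by simp [h, st]⟩
    exact (h1.seq (h2.seq ((push4 B _ _ _ _ _ _ _ false).seq (h3.seq (h4.seq
      ((push4 B _ _ _ _ _ _ _ b).seq ((push4 B _ _ _ _ _ _ _ false).seq
      ((push4 B _ _ _ _ _ _ _ true).seq ((push4 B _ _ _ _ _ _ _ true).seq
      (ask4_yes h (push3 B _ _ _ _ _ _ _ true))))))))))).mono (by omega)
  · refine ⟨st [] [] [] [false] (wt b y z) [] [], ?_, by simp [h, st]⟩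
    exact (h1.seq (h2.seq ((push4 B _ _ _ _ _ _ _ false).seq (h3.seq (h4.seq
      ((push4 B _ _ _ _ _ _ _ b).seq ((push4 B _ _ _ _ _ _ _ false).seq
      ((push4 B _ _ _ _ _ _ _ true).seq ((push4 B _ _ _ _ _ _ _ true).seq
      (ask4_no h (push3 B _ _ _ _ _ _ _ false))))))))))).mono (by omega)

theorem out_verProg (B : Set Str) (b : Bool) (y z : Str) {n : ℕ}
    (hn : 12 * (y.length + z.length) + 30 ≤ n) :
    out B (verProg b) [] y z n = some [decide (wt b y z ∈ B)] := by
  obtain ⟨s', ⟨m, hm, h1⟩, h2⟩ := verProg_spec B b y z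
  rw [← init_eq] at h1
  rw [out_of_exec h1 (hm.trans hn), h2]

end Pool.IC
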