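import Pool.Agent.Work.OracleCmd_h91.Cmd

open Classical

namespace Pool.IC

theorem iterate_nil (B : Set Str) (s : Store) (n : ℕ) :
    (step B)^[n] ([], s) = ([], s) := by
  induction n with
  | zero => rfl
  | succ n ih => rw [Function.iterate_succ_apply, step, ih]

/-- `c` started with stacks `s` takes `n` steps and ends with stacks `s'`. -/
def Exec (B : Set Str) (c : Cmd) (s : Store) (n : ℕ) (s' : Store) : Prop :=
  ∀ k, (step B)^[n] (c :: k, s) = (k, s')

theorem exec_skip (B : Set Str) (s : Store) : Exec B Cmd.skip s 1 s := fun _ => rfl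

theorem exec_push (B : Set Str) (i : ℕ) (b : Bool) (s : Store) :
    Exec B (Cmd.push i b) s 1 (Function.update s i (b :: s i)) := fun _ => rfl

theorem exec_pop (B : Set Str) (i : ℕ) (s : Store) :
    Exec B (Cmd.pop i) s 1 (Function.update s i (s i).tail) := fun _ => rfl

theorem exec_seq {B : Set Str} {c d : Cmd} {s s' s'' : Store} {m n : ℕ}
    (h1 : Exec B c s m s') (h2 : Exec B d s' n s'') :
    Exec B (Cmd.seq c d) s (m + n + 1) s'' := by
  intro k
  rw [Function.iterate_succ_apply, step, Nat.add_comm m n, Function.iterate_add_apply,
    h1 (d :: k), h2 k]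

theorem exec_branch_nil {B : Set Str} {i : ℕ} {e f t : Cmd} {s s' : Store} {n : ℕ}
    (hi : s i = []) (h : Exec B e s n s') : Exec B (Cmd.branch i e f t) s (n + 1) s' := by
  intro k
  rw [Function.iterate_succ_apply]
  have : step B (Cmd.branch i e f t :: k, s) = (e :: k, s) := by simp [step, hi]
  rw [this, h k]

theorem exec_branch_false {B : Set Str} {i : ℕ} {e f t : Cmd} {s s' : Store} {n : ℕ} {l : Str}
    (hi : s i = false :: l) (h : Exec B f s n s') :
    Exec B (Cmd.branch i e f t) s (n + 1) s' := by
  intro k
  rw [Function.iterate_succ_apply]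
  have : step B (Cmd.branch i e f t :: k, s) = (f :: k, s) := by simp [step, hi]
  rw [this, h k]

theorem exec_branch_true {B : Set Str} {i : ℕ} {e f t : Cmd} {s s' : Store} {n : ℕ} {l : Str}
    (hi : s i = true :: l) (h : Exec B t s n s') :
    Exec B (Cmd.branch i e f t) s (n + 1) s' := by
  intro k
  rw [Function.iterate_succ_apply]
  have : step B (Cmd.branch i e f t :: k, s) = (t :: k, s) := by simp [step, hi]
  rw [this, h k]

theorem exec_ask_yes {B : Set Str} {i : ℕ} {y n : Cmd} {s s' : Store} {m : ℕ}
    (hi : s i ∈ B) (h : Exec B y s m s') : Exec B (Cmd.ask i y n) s (m + 1) s' := by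
  intro k
  rw [Function.iterate_succ_apply]
  have : step B (Cmd.ask i y n :: k, s) = (y :: k, s) := by simp [step, hi]
  rw [this, h k]

theorem exec_ask_no {B : Set Str} {i : ℕ} {y n : Cmd} {s s' : Store} {m : ℕ}
    (hi : s i ∉ B) (h : Exec B n s m s') : Exec B (Cmd.ask i y n) s (m + 1) s' := by
  intro k
  rw [Function.iterate_succ_apply]
  have : step B (Cmd.ask i y n :: k, s) = (n :: k, s) := by simp [step, hi]
  rw [this, h k]

theorem exec_loop_nil {B : Set Str} {i : ℕ} {c : Cmd} {s : Store}
    (hi : s i = []) : Exec B (Cmd.loop i c) s 1 s := by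
  intro k
  simp [step, hi]

theorem exec_loop_step {B : Set Str} {i : ℕ} {c : Cmd} {s s' s'' : Store} {m n : ℕ}
    (hi : s i ≠ []) (h1 : Exec B c s m s') (h2 : Exec B (Cmd.loop i c) s' n s'') :
    Exec B (Cmd.loop i c) s (m + n + 1) s'' := by
  intro k
  rw [Function.iterate_succ_apply]
  have : step B (Cmd.loop i c :: k, s) = (c :: Cmd.loop i c :: k, s) := by simp [step, hi]
  rw [this, Nat.add_comm m n, Function.iterate_add_apply, h1 _, h2 k]

theorem halted_mono {B : Set Str} {c : Config} {n N : ℕ} (h : ((step B)^[n] c).1 = [])
    (hN : n ≤ N) : (step B)^[N] c = (step B)^[n] c := by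
  obtain ⟨d, rfl⟩ := Nat.exists_eq_add_of_le hN
  rw [Nat.add_comm, Function.iterate_add_apply]
  have : (step B)^[n] c = ([], ((step B)^[n] c).2) := by
    rw [← h]
  rw [this, iterate_nil]

theorem out_mono {B : Set Str} {M : Cmd} {p y z : Str} {n N : ℕ} {o : Str}
    (h : out B M p y z n = some o) (hN : n ≤ N) : out B M p y z N = some o := by
  unfold out at h ⊢
  split_ifs at h with h0
  rw [halted_mono h0 hN, if_pos h0]
  exact h

theorem out_det {B : Set Str} {M : Cmd} {p y z : Str} {n N : ℕ} {o o' : Str}
    (h : out B M p y z n = some o) (h' : out B M p y z N = some o') : o = o' := by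
  have h1 := out_mono h (le_max_left n N)
  have h2 := out_mono h' (le_max_right n N)
  rw [h1] at h2
  exact Option.some.inj h2

theorem out_of_exec {B : Set Str} {M : Cmd} {p y z : Str} {n N : ℕ} {s' : Store}
    (h : Exec B M (init p y z) n s') (hN : n ≤ N) : out B M p y z N = some (s' 3) := by
  have h1 := h []
  have h2 : ((step B)^[n] ([M], init p y z)).1 = [] := by rw [h1]
  unfold out
  rw [halted_mono h2 hN, h1]
  simp

/-! ### Locality -/

/-- The oracle question of a configuration. -/
def query : Config → Option Str
  | (Cmd.ask i _ _ :: _, s) => some (s i)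
  | _ => none

theorem step_congr {B B' : Set Str} {c : Config}
    (h : ∀ q, query c = some q → (q ∈ B ↔ q ∈ B')) : step B c = step B' c := by
  obtain ⟨k, s⟩ := c
  cases k with
  | nil => rfl
  | cons a k =>
    cases a with
    | skip => rfl
    | push i b => rfl
    | pop i => rfl
    | seq c d => rfl
    | branch i e f t => rfl
    | ask i y n =>
      have := h (s i) rfl
      simp only [step, this]
    | loop i c => rfl

theorem iterate_congr {B B' : Set Str} {c : Config} {n : ℕ}
    (h : ∀ j < n, ∀ q, query ((step B)^[j] c) = some q → (q ∈ B ↔ q ∈ B')) :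
    (step B)^[n] c = (step B')^[n] c := by
  induction n with
  | zero => rfl
  | succ n ih =>
    rw [Function.iterate_succ_apply', Function.iterate_succ_apply',
      ← ih (fun j hj => h j (hj.trans n.lt_succ_self))]
    exact step_congr (h n n.lt_succ_self)

/-- The oracle questions asked in the first `n` steps. -/
noncomputable def queries (B : Set Str) (M : Cmd) (p y z : Str) (n : ℕ) : Finset Str :=
  (Finset.range n).biUnion fun j => (query ((step B)^[j] ([M], init p y z))).toFinset

theorem card_queries (B : Set Str) (M : Cmd) (p y z : Str) (n : ℕ) :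
    (queries B M p y z n).card ≤ n := by
  unfold queries
  refine (Finset.card_biUnion_le).trans ?_
  calc ∑ j ∈ Finset.range n, (query ((step B)^[j] ([M], init p y z))).toFinset.card
      ≤ ∑ j ∈ Finset.range n, 1 := by
        refine Finset.sum_le_sum fun j _ => ?_
        cases query ((step B)^[j] ([M], init p y z)) <;> simp
    _ = n := by simp

theorem out_congr {B B' : Set Str} {M : Cmd} {p y z : Str} {n m : ℕ} (hm : m ≤ n)
    (h : ∀ q ∈ queries B M p y z n, (q ∈ B ↔ q ∈ B')) :
    out B M p y z m = out B' M p y z m := by
  unfold out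
  rw [iterate_congr (B := B) (B' := B')]
  intro j hj q hq
  refine h q ?_
  unfold queries
  rw [Finset.mem_biUnion]
  exact ⟨j, Finset.mem_range.2 (hj.trans_le hm), by simp [hq]⟩

theorem length_step {B : Set Str} {c : Config} {L : ℕ} (h : ∀ i, (c.2 i).length ≤ L) (i : ℕ) :
    ((step B c).2 i).length ≤ L + 1 := by
  obtain ⟨k, s⟩ := c
  have hi : (s i).length ≤ L + 1 := (h i).trans (Nat.le_succ L)
  cases k with
  | nil => exact hi
  | cons a k =>
    cases a with
    | skip => exact hi
    | push j b =>
      simp only [step]
      by_cases hij : i = j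
      · subst hij
        have := h i
        simp only [Function.update_self, List.length_cons]
        exact Nat.succ_le_succ this
      · rw [Function.update_of_ne hij]; exact hi
    | pop j =>
      simp only [step]
      by_cases hij : i = j
      · subst hij
        have h0 : (s i).length ≤ L := h i
        simp only [Function.update_self, List.length_tail]
        omega
      · rw [Function.update_of_ne hij]; exact hi
    | seq c d => exact hi
    | branch j e f t => exact hi
    | ask j y n => exact hi
    | loop j c =>
      simp only [step]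
      split_ifs <;> exact hi

theorem length_iterate {B : Set Str} {c : Config} {L : ℕ} (h : ∀ i, (c.2 i).length ≤ L) (n i : ℕ) :
    (((step B)^[n] c).2 i).length ≤ L + n := by
  induction n generalizing i with
  | zero => exact h i
  | succ n ih =>
    rw [Function.iterate_succ_apply']
    exact length_step ih i

theorem length_init (p y z : Str) (i : ℕ) :
    (init p y z i).length ≤ p.length + y.length + z.length := by
  unfold init
  split_ifs
  · omega
  · omega
  · omega
  · simp

theorem length_queries {B : Set Str} {M : Cmd} {p y z : Str} {n : ℕ} {q : Str}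
    (h : q ∈ queries B M p y z n) : q.length ≤ p.length + y.length + z.length + n := by
  unfold queries at h
  rw [Finset.mem_biUnion] at h
  obtain ⟨j, hj, hq⟩ := h
  rw [Finset.mem_range] at hj
  have hl := length_iterate (B := B) (c := ([M], init p y z)) (length_init p y z) j
  have hq' : query ((step B)^[j] ([M], init p y z)) = some q := by
    simpa using hq
  generalize (step B)^[j] ([M], init p y z) = c at hl hq'
  obtain ⟨k, s⟩ := c
  cases k with
  | nil => simp [query] at hq'
  | cons a k =>
    cases a with
    | ask i y' n' =>
      simp only [query, Option.some.injEq] at hq'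
      have := hl i
      simp only [hq'] at this
      omega
    | _ => simp [query] at hq'

end Pool.IC
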