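import Mathlib

open Filter

namespace Pool.IC

theorem pow_growth (K n : ℕ) : ∀ᶠ m : ℕ in atTop, K * m ^ n ≤ 2 ^ m := by
  have h := tendsto_pow_const_div_const_pow_of_one_lt n (r := (2 : ℝ)) one_lt_two
  have h2 := h.eventually (gt_mem_nhds (show (0 : ℝ) < 1 / (K + 1) by positivity))
  filter_upwards [h2] with m hm
  rw [div_lt_div_iff₀ (by positivity) (by positivity)] at hm
  have h3 : (K : ℝ) * (m : ℝ) ^ n ≤ 2 ^ m := by
    have : (0 : ℝ) ≤ (m : ℝ) ^ n := by positivity
    nlinarith
  exact_mod_cast h3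

theorem poly_growth (q : Polynomial ℕ) :
    ∀ c : ℕ, ∀ᶠ m : ℕ in atTop, c * q.eval (16 * m) ≤ 2 ^ m := by
  induction q using Polynomial.induction_on' with
  | add p q hp hq =>
    intro c
    filter_upwards [hp (2 * c), hq (2 * c)] with m h1 h2
    rw [Polynomial.eval_add]
    nlinarith
  | monomial n a =>
    intro c
    filter_upwards [pow_growth (c * a * 16 ^ n) n] with m hm
    rw [Polynomial.eval_monomial, mul_pow]
    calc c * (a * (16 ^ n * m ^ n)) = c * a * 16 ^ n * m ^ n := by ring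
      _ ≤ 2 ^ m := hm

theorem eval_mono (q : Polynomial ℕ) {m n : ℕ} (h : m ≤ n) : q.eval m ≤ q.eval n := by
  rw [Polynomial.eval_eq_sum_range, Polynomial.eval_eq_sum_range]
  exact Finset.sum_le_sum fun i _ => Nat.mul_le_mul_left _ (Nat.pow_le_pow_left h i)

end Pool.IC
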