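import Mathlib

/-!
# Oracle stack programs (model of computation)

Strings are `List Bool`.  A program works on stacks of bits (numbered by `ℕ`; every program
mentions finitely many of them).  It is a structured program with push, pop, case distinction on
the top of a stack, loops and oracle questions about the content of a stack; every elementary
action costs one step.  Up to constant factors in time these are the multitape oracle Turing
machines (a tape is a pair of stacks).
-/

open Classical

namespace Pool.IC

/-- Binary strings. -/
abbrev Str := List Bool

/-- Programs of oracle stack machines. -/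
inductive Cmd : Type
  /-- do nothing -/
  | skip : Cmd
  /-- push the bit `b` on stack `i` -/
  | push (i : ℕ) (b : Bool) : Cmd
  /-- pop stack `i` (no effect if it is empty) -/
  | pop (i : ℕ) : Cmd
  /-- first `c`, then `d` -/
  | seq (c d : Cmd) : Cmd
  /-- case distinction: stack `i` empty, top `false`, top `true` -/
  | branch (i : ℕ) (e f t : Cmd) : Cmd
  /-- oracle question: is the content of stack `i` in the oracle? -/
  | ask (i : ℕ) (y n : Cmd) : Cmd
  /-- while stack `i` is not empty do `c` -/
  | loop (i : ℕ) (c : Cmd) : Cmd

/-- Contents of the stacks (top = head of the list). -/
abbrev Store := ℕ → Str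

/-- A configuration: the list of program parts still to be executed, and the stacks. -/
abbrev Config := List Cmd × Store

/-- One step of the computation with oracle `B`. -/
noncomputable def step (B : Set Str) : Config → Config
  | ([], s) => ([], s)
  | (Cmd.skip :: k, s) => (k, s)
  | (Cmd.push i b :: k, s) => (k, Function.update s i (b :: s i))
  | (Cmd.pop i :: k, s) => (k, Function.update s i (s i).tail)
  | (Cmd.seq c d :: k, s) => (c :: d :: k, s)
  | (Cmd.branch i e f t :: k, s) =>
      ((match s i with
        | [] => e
        | false :: _ => f
        | true :: _ => t) :: k, s)
  | (Cmd.ask i y n :: k, s) => ((if s i ∈ B then y else n) :: k, s)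
  | (Cmd.loop i c :: k, s) => if s i = [] then (k, s) else (c :: Cmd.loop i c :: k, s)

/-- Start: program-type input `p` on stack 0, conditional input `y` on stack 1, input `z` on
stack 2, all other stacks empty. -/
def init (p y z : Str) : Store := fun i =>
  if i = 0 then p else if i = 1 then y else if i = 2 then z else []

/-- Output (content of stack 3) of program `M` with oracle `B` on input `p, y, z`, if it halts
within `n` steps. -/
noncomputable def out (B : Set Str) (M : Cmd) (p y z : Str) (n : ℕ) : Option Str :=
  if ((step B)^[n] ([M], init p y z)).1 = [] then some (((step B)^[n] ([M], init p y z)).2 3)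
  else none

/-- Value `1` or `0` of the characteristic function, as a string. -/
noncomputable def chi (A : Set Str) (z : Str) : Str := [decide (z ∈ A)]

/-- `A` is decidable relative to `B`. -/
def DecidableIn (B A : Set Str) : Prop :=
  ∃ M : Cmd, ∀ z : Str, ∃ n : ℕ, out B M [] [] z n = some (chi A z)

/-- `A` is decidable in time `t` relative to `B`. -/
def InTime (B : Set Str) (t : ℕ → ℕ) (A : Set Str) : Prop :=
  ∃ M : Cmd, ∀ z : Str, out B M [] [] z (t z.length) = some (chi A z)

/-- `A` is in the class P relative to `B`. -/
def InP (B A : Set Str) : Prop := ∃ q : Polynomial ℕ, InTime B (fun n => q.eval n) A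

end Pool.IC
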